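import Pool.Agent.Helper64.JE.EigAbs

/-!
# Block T9: eigenfunctions
-/

open MeasureTheory Filter Topology Finset
open scoped BigOperators ComplexConjugate InnerProductSpace

namespace Pool.Agent.JE

variable {X : Type} [MeasurableSpace X] {μ : Measure X} [IsProbabilityMeasure μ]

open T9 in
theorem eig (A : Act X μ) (herg : Ergodic (A.S 1) μ) (u : X → ℂ) (hu : Bdd u) (a : ℝ)
    (ha : 0 < a) (h : ∃ᶠ H : ℕ in atTop, a ≤ ravg H (fun h => (Cor A [(h : ℤ)] u) ^ 2)) :
    ∃ (χ : X → ℂ) (α : ℝ), IsEig A χ α ∧ a / 16 ≤ ‖∫ x, u x * conj (χ x) ∂μ‖ ^ 2 := by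
  set U : Lp ℂ 2 μ →ₗᵢ[ℂ] Lp ℂ 2 μ := Lp.compMeasurePreservingₗᵢ ℂ (A.S 1) (A.mp 1) with hU
  have hm : ∀ d : ℤ, MemLp (fun x => u (A.S d x)) 2 μ := fun d =>
    MemLp.of_bound (hu.meas.comp (A.mp d).measurable).aestronglyMeasurable 1
      (Eventually.of_forall fun x => hu.le _)
  have hm0 : MemLp u 2 μ := MemLp.of_bound hu.meas.aestronglyMeasurable 1
      (Eventually.of_forall fun x => hu.le _)
  set uL : Lp ℂ 2 μ := hm0.toLp u with huL
  have hiter : ∀ d : ℕ, (U^[d]) uL = (hm d).toLp _ := by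
    intro d
    induction d with
    | zero =>
      simp only [Function.iterate_zero, id, huL]
      apply MemLp.toLp_congr
      exact Eventually.of_forall fun x => by simp [A.zero]
    | succ d ih =>
      rw [Function.iterate_succ_apply', ih]
      have h1 : U ((hm d).toLp _) = ((hm d).comp_measurePreserving (A.mp 1)).toLp _ := rfl
      rw [h1]
      apply MemLp.toLp_congr
      refine Eventually.of_forall fun x => ?_
      simp only [Function.comp]
      rw [← A.add]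
      push_cast
      rfl
  have hinner : ∀ (d : ℕ), ‖⟪uL, (U^[d]) uL⟫_ℂ‖ = Cor A [(d : ℤ)] u := by
    intro d
    rw [hiter, L2.inner_def]
    unfold Cor
    congr 1
    apply integral_congr_ae
    filter_upwards [hm0.coeFn_toLp, (hm d).coeFn_toLp] with x h1 h2
    rw [h1, h2]
    simp [cub, Dl, RCLike.inner_apply]
  have hn : ‖uL‖ ≤ 1 := by
    have := Lp.norm_le_of_ae_bound (p := 2) (f := uL) (C := 1) zero_le_one (by
      filter_upwards [hm0.coeFn_toLp] with x h1
      rw [h1]; exact hu.le x)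
    have h2 : measureUnivNNReal μ = 1 := by
      simp [measureUnivNNReal]
    rw [h2] at this
    simpa using this
  have hf : ∃ᶠ H : ℕ in atTop, a * H ≤ ∑ d ∈ range H, ‖⟪uL, (U^[d]) uL⟫_ℂ‖ ^ 2 := by
    refine h.mono fun H hH => ?_
    simp only [hinner]
    unfold ravg at hH
    rcases Nat.eq_zero_or_pos H with rfl | h0
    · simp
    · rwa [le_div_iff₀ (by exact_mod_cast h0)] at hH
  obtain ⟨lam, g, hg1, hg2, hg3⟩ := exists_eigvec U uL hn a ha hf
  have hgm : Measurable (g : X → ℂ) := (Lp.stronglyMeasurable g).measurable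
  have hgS : ∀ᵐ x ∂μ, g (A.S 1 x) = e lam * g x := by
    have h1 : (U g : Lp ℂ 2 μ) =ᵐ[μ] g ∘ (A.S 1) := Lp.coeFn_compMeasurePreserving g (A.mp 1)
    have h2 : ((e lam • g : Lp ℂ 2 μ) : X → ℂ) =ᵐ[μ] e lam • (g : X → ℂ) := Lp.coeFn_smul _ _
    rw [hg1] at h1
    filter_upwards [h1, h2] with x h3 h4
    have : g (A.S 1 x) = (e lam • g : Lp ℂ 2 μ) x := h3.symm
    rw [this, h4]
    rfl
  obtain ⟨c, hc⟩ := herg.ae_eq_const_of_ae_eq_comp_ae (g := fun x => ‖g x‖)
    hgm.norm.aestronglyMeasurable (by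
      filter_upwards [hgS] with x hx
      simp only [Function.comp]
      rw [hx, norm_mul, norm_e, one_mul])
  have hc' : ∀ᵐ x ∂μ, ‖g x‖ = c := hc
  have hc0 : 0 ≤ c := by
    obtain ⟨x, hx⟩ := hc'.exists
    rw [← hx]; exact norm_nonneg _
  have hgc : ‖g‖ ^ 2 = c ^ 2 := by
    have h1 : ((‖g‖ ^ 2 : ℝ) : ℂ) = ((c ^ 2 : ℝ) : ℂ) := by
      have h2 : ((‖g‖ ^ 2 : ℝ) : ℂ) = ⟪g, g⟫_ℂ := by
        rw [inner_self_eq_norm_sq_to_K]; push_cast; rfl
      rw [h2, L2.inner_def]
      have h3 : ∫ x, ⟪g x, g x⟫_ℂ ∂μ = ∫ _x, ((c ^ 2 : ℝ) : ℂ) ∂μ := by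
        apply integral_congr_ae
        filter_upwards [hc'] with x hx
        rw [inner_self_eq_norm_sq_to_K, hx]
        push_cast; rfl
      rw [h3]
      simp
    exact_mod_cast h1
  have hcpos : 0 < c := by
    rcases hc0.lt_or_eq with h1 | h1
    · exact h1
    · rw [hgc, ← h1] at hg3
      nlinarith
  set χ : X → ℂ := fun x => if g x = 0 then 1 else g x / ‖g x‖ with hχ
  have hχc : ∀ᵐ x ∂μ, χ x = g x / c := by
    filter_upwards [hc'] with x hx
    have : g x ≠ 0 := by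
      intro h0; rw [h0, norm_zero] at hx; exact hcpos.ne hx
    rw [hχ]
    simp only [this, if_false, hx]
  refine ⟨χ, lam, ⟨?_, ?_, ?_⟩, ?_⟩
  · exact Measurable.ite (hgm (measurableSet_singleton 0)) measurable_const
      (hgm.div (Complex.measurable_ofReal.comp hgm.norm))
  · intro x
    rw [hχ]
    simp only
    split_ifs with h0
    · simp
    · rw [norm_div, Complex.norm_real, norm_norm, div_self (norm_ne_zero_iff.mpr h0)]
  · have h1 : ∀ᵐ x ∂μ, χ (A.S 1 x) = g (A.S 1 x) / c :=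
      (A.mp 1).quasiMeasurePreserving.ae hχc
    filter_upwards [hχc, h1, hgS] with x h2 h3 h4
    rw [h2, h3, h4]
    ring
  · have h1 : ∫ x, u x * conj (χ x) ∂μ = (c : ℂ)⁻¹ * ⟪g, uL⟫_ℂ := by
      rw [L2.inner_def, ← integral_const_mul]
      apply integral_congr_ae
      filter_upwards [hχc, hm0.coeFn_toLp] with x h2 h3
      rw [h2, h3, map_div₀, Complex.conj_ofReal, RCLike.inner_apply]
      ring
    rw [h1, hg2, norm_mul, norm_inv, Complex.norm_real, Real.norm_of_nonneg hc0, norm_pow,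
      Complex.norm_real, norm_norm, hgc]
    have : (c⁻¹ * c ^ 2) ^ 2 = ‖g‖ ^ 2 := by
      rw [hgc]; field_simp
    rw [this]
    linarith

end Pool.Agent.JE
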