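import Pool.Agent.Helper65.JE.NS
import Pool.Agent.Helper66.JE.SlowAvg

/-! MP_ce5406_an, block R4 (`round_slow`): averages of functions of rounded slow variables. -/

open MeasureTheory Filter Topology Finset
open scoped BigOperators ComplexConjugate

namespace Pool.Agent.JE

namespace RoundSlow

theorem round_eq_half (x : ℝ) : round x = (⌊2 * x⌋ + 1) / 2 := by
  rw [round_eq, Int.floor_eq_iff]
  have h1 : ((⌊2 * x⌋ + 1) / 2 : ℤ) * 2 ≤ ⌊2 * x⌋ + 1 := Int.ediv_mul_le _ (by norm_num)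
  have h2 : ⌊2 * x⌋ + 1 < ((⌊2 * x⌋ + 1) / 2 : ℤ) * 2 + 2 := by omega
  have h3 := Int.floor_le (2 * x)
  have h4 := Int.lt_floor_add_one (2 * x)
  have h1' : (((⌊2 * x⌋ + 1) / 2 : ℤ) : ℝ) * 2 ≤ (⌊2 * x⌋ : ℝ) + 1 := by exact_mod_cast h1
  have h2' : (⌊2 * x⌋ : ℝ) + 1 + 1 ≤ (((⌊2 * x⌋ + 1) / 2 : ℤ) : ℝ) * 2 + 2 := by
    exact_mod_cast h2
  constructor <;> linarith

theorem lead_pos {c : ℝ} (hc : 0 < c) : 0 < lead c := by
  unfold lead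
  refine div_pos (Finset.prod_pos fun j hj => ?_) (by exact_mod_cast Nat.factorial_pos _)
  have h1 := mem_range.1 hj
  have h2 : ((⌊c⌋₊ : ℕ) : ℝ) ≤ c := Nat.floor_le hc.le
  have h3 : (j : ℝ) < ⌊c⌋₊ := by exact_mod_cast h1
  linarith

theorem frac_pos {c : ℝ} (hc : PosNonInt c) : 0 < c - ⌊c⌋₊ := by
  have h2 : ((⌊c⌋₊ : ℕ) : ℝ) ≤ c := Nat.floor_le hc.1.le
  have h3 : c ≠ ((⌊c⌋₊ : ℕ) : ℝ) := by
    have := hc.2 ((⌊c⌋₊ : ℕ) : ℤ)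
    exact_mod_cast this
  have := lt_of_le_of_ne h2 (Ne.symm h3)
  linarith

theorem sum_two_mul (M : ℕ) (f : ℕ → ℝ) :
    ∑ i ∈ range (2 * M), f i = ∑ j ∈ range M, f (2 * j) + ∑ j ∈ range M, f (2 * j + 1) := by
  induction M with
  | zero => simp
  | succ M ih =>
    rw [show 2 * (M + 1) = 2 * M + 1 + 1 by ring, sum_range_succ, sum_range_succ, ih,
      sum_range_succ, sum_range_succ]
    ring

end RoundSlow

open RoundSlow in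
/-- R4 -/
theorem round_slow (B : Finset ℝ) (c : ℝ) (hc : PosNonInt c) (hc1 : 1 < c)
    (hB : ∀ b ∈ B, PosNonInt b ∧ b < c) (Q : ℕ) (hQ : 1 ≤ Q) (G : (ℝ → ℤ) → ℤ → ℝ)
    (hG0 : ∀ σ b, 0 ≤ G σ b) (hG1 : ∀ σ b, G σ b ≤ 1)
    (hG : ∀ ε > 0, ∃ N₀ : ℕ, ∀ N ≥ N₀, ∀ σ (a : ℤ), ravg N (fun s => G σ (a + s)) ≤ ε) :
    Tendsto (fun N => ravg N (fun n => G
      (fun b => if b ∈ B ∧ ⌊b⌋₊ = ⌊c⌋₊ then
        round ((Q : ℝ) * lead b * (n : ℝ) ^ (b - (⌊b⌋₊ : ℝ))) else 0)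
      (round ((Q : ℝ) * lead c * (n : ℝ) ^ (c - (⌊c⌋₊ : ℝ)))))) atTop (𝓝 0) := by
  have hQ0 : (0 : ℝ) < Q := by exact_mod_cast hQ
  set J : Finset ℝ := B.filter (fun b => ⌊b⌋₊ = ⌊c⌋₊) with hJ
  set g : ({b // b ∈ J} → ℤ) → ℕ → ℝ := fun σ b =>
    G (fun x => if h : x ∈ J then (σ ⟨x, h⟩ + 1) / 2 else 0) (((b : ℤ) + 1) / 2) with hg
  have hκ : 0 < 2 * ((Q : ℝ) * lead c) := by
    have := lead_pos hc.1
    positivity
  have hγ := frac_pos hc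
  have hγ1 : c - (⌊c⌋₊ : ℝ) < 1 := by
    have := Nat.lt_floor_add_one c
    linarith
  have key := slow_avg (E := ℝ) (I := {b // b ∈ J}) (2 * ((Q : ℝ) * lead c)) (c - (⌊c⌋₊ : ℝ))
    hκ hγ hγ1 (fun i => 2 * ((Q : ℝ) * lead i.1)) (fun i => i.1 - (⌊i.1⌋₊ : ℝ))
    (fun i => by
      obtain ⟨h1, h2⟩ := mem_filter.1 i.2
      obtain ⟨h3, h4⟩ := hB _ h1
      refine ⟨frac_pos h3, ?_⟩
      rw [h2]
      linarith)
    g (fun σ b => by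
      rw [hg, Real.norm_eq_abs, abs_of_nonneg (hG0 _ _)]
      exact hG1 _ _)
    (by
      intro ε hε
      obtain ⟨N₀, hN₀⟩ := hG ε hε
      refine ⟨2 * (N₀ + 1), by omega, fun σ b0 => ?_⟩
      set τ : ℝ → ℤ := fun x => if h : x ∈ J then (σ ⟨x, h⟩ + 1) / 2 else 0 with hτ
      have e1 := hN₀ (N₀ + 1) (by omega) τ (((b0 : ℤ) + 1) / 2)
      have e2 := hN₀ (N₀ + 1) (by omega) τ ((b0 : ℤ) / 2 + 1)
      have e3 : 0 ≤ ∑ i ∈ range (2 * (N₀ + 1)), g σ (b0 + i) := sum_nonneg fun i _ => hG0 _ _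
      rw [smul_eq_mul, Real.norm_eq_abs, abs_of_nonneg (by positivity)]
      rw [sum_two_mul (N₀ + 1) (fun i => g σ (b0 + i))]
      have e4 : ∑ j ∈ range (N₀ + 1), g σ (b0 + 2 * j) =
          ∑ j ∈ range (N₀ + 1), G τ (((b0 : ℤ) + 1) / 2 + (j : ℕ)) := by
        refine sum_congr rfl fun j _ => ?_
        simp only [hg, hτ]
        congr 1
        push_cast
        omega
      have e5 : ∑ j ∈ range (N₀ + 1), g σ (b0 + (2 * j + 1)) =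
          ∑ j ∈ range (N₀ + 1), G τ ((b0 : ℤ) / 2 + 1 + (j : ℕ)) := by
        refine sum_congr rfl fun j _ => ?_
        simp only [hg, hτ]
        congr 1
        push_cast
        omega
      rw [e4, e5]
      unfold ravg at e1 e2
      have hN : (0 : ℝ) < ((N₀ + 1 : ℕ) : ℝ) := by positivity
      rw [div_le_iff₀ hN] at e1 e2
      have e6 : ((2 * (N₀ + 1) : ℕ) : ℝ) = 2 * ((N₀ + 1 : ℕ) : ℝ) := by push_cast; ring
      rw [e6, inv_mul_le_iff₀ (by positivity)]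
      linarith)
  refine key.congr fun N => ?_
  have e0 : ∀ n : ℕ, g (fun i => ⌊2 * ((Q : ℝ) * lead i.1) * (n : ℝ) ^ (i.1 - (⌊i.1⌋₊ : ℝ))⌋)
      ⌊2 * ((Q : ℝ) * lead c) * (n : ℝ) ^ (c - (⌊c⌋₊ : ℝ))⌋₊ = G
      (fun b => if b ∈ B ∧ ⌊b⌋₊ = ⌊c⌋₊ then
        round ((Q : ℝ) * lead b * (n : ℝ) ^ (b - (⌊b⌋₊ : ℝ))) else 0)
      (round ((Q : ℝ) * lead c * (n : ℝ) ^ (c - (⌊c⌋₊ : ℝ)))) := by
    intro n
    simp only [hg]
    congr 1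
    · ext x
      by_cases hx : x ∈ J
      · have hx' : x ∈ B ∧ ⌊x⌋₊ = ⌊c⌋₊ := by simpa [hJ] using hx
        rw [dif_pos hx, if_pos hx', round_eq_half]
        congr 3
        ring
      · have hx' : ¬ (x ∈ B ∧ ⌊x⌋₊ = ⌊c⌋₊) := by simpa [hJ] using hx
        rw [dif_neg hx, if_neg hx']
    · have h1 : (0 : ℝ) ≤ 2 * ((Q : ℝ) * lead c) * (n : ℝ) ^ (c - (⌊c⌋₊ : ℝ)) := by positivity
      rw [Int.natCast_floor_eq_floor h1, round_eq_half]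
      congr 3
      ring
  have e7 : 0 ≤ (N : ℝ)⁻¹ • ∑ n ∈ range N, g (fun i => ⌊2 * ((Q : ℝ) * lead i.1) *
      (n : ℝ) ^ (i.1 - (⌊i.1⌋₊ : ℝ))⌋) ⌊2 * ((Q : ℝ) * lead c) * (n : ℝ) ^ (c - (⌊c⌋₊ : ℝ))⌋₊ := by
    rw [smul_eq_mul]
    exact mul_nonneg (by positivity) (sum_nonneg fun n _ => hG0 _ _)
  rw [Real.norm_eq_abs, abs_of_nonneg e7, smul_eq_mul]
  unfold ravg
  rw [div_eq_inv_mul]
  congr 1
  exact sum_congr rfl fun n _ => e0 n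

end Pool.Agent.JE
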