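import Pool.Agent.Helper65.JE.Defs

/-!
# Block T9, abstract part: finite Fourier analysis of an isometry
-/

open Filter Topology Finset
open scoped BigOperators ComplexConjugate InnerProductSpace

namespace Pool.Agent.JE.T9

open Pool.Agent.JE

lemma e_add (x y : ℝ) : e (x + y) = e x * e y := by
  unfold e; rw [← Complex.exp_add]; congr 1; push_cast; ring

lemma e_zero : e 0 = 1 := by simp [e]

lemma e_int (n : ℤ) : e n = 1 := by
  unfold e
  rw [Complex.exp_eq_one_iff]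
  exact ⟨n, by push_cast; ring⟩

lemma norm_e (x : ℝ) : ‖e x‖ = 1 := by
  unfold e
  have : (2 * Real.pi * x * Complex.I : ℂ) = ((2 * Real.pi * x : ℝ) : ℂ) * Complex.I := by
    push_cast; ring
  rw [this, Complex.norm_exp_ofReal_mul_I]

lemma conj_e (x : ℝ) : conj (e x) = e (-x) := by
  unfold e
  rw [← Complex.exp_conj]
  congr 1
  simp only [map_mul, Complex.conj_ofReal, Complex.conj_I, map_ofNat]
  push_cast
  ring

lemma e_neg_mul (x : ℝ) : e (-x) * e x = 1 := by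
  rw [← e_add]; simp [e_zero]

lemma e_nat_mul (x : ℝ) (n : ℕ) : e (n * x) = e x ^ n := by
  unfold e; rw [← Complex.exp_nat_mul]; congr 1; push_cast; ring

lemma e_eq_one {x : ℝ} (h : e x = 1) : ∃ n : ℤ, x = n := by
  unfold e at h
  rw [Complex.exp_eq_one_iff] at h
  obtain ⟨n, hn⟩ := h
  refine ⟨n, ?_⟩
  have h1 : (2 * Real.pi * Complex.I : ℂ) ≠ 0 := by simp [Real.pi_ne_zero]
  have h2 : (x : ℂ) = n := by
    apply mul_left_cancel₀ h1
    linear_combination hn
  exact_mod_cast h2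

lemma continuous_e : Continuous e := by
  unfold e
  fun_prop

/-- orthogonality of characters on the grid `j / M` -/
lemma orth (M : ℕ) (hM : 1 ≤ M) (n : ℤ) (hn : |n| < M) :
    ∑ j ∈ range M, e ((j : ℝ) / M * n) = if n = 0 then (M : ℂ) else 0 := by
  have hM' : (M : ℝ) ≠ 0 := by positivity
  split_ifs with h
  · subst h
    simp [e_zero]
  · have h1 : ∀ j ∈ range M, e ((j : ℝ) / M * n) = e ((n : ℝ) / M) ^ j := by
      intro j _
      rw [← e_nat_mul]
      congr 1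
      ring
    rw [sum_congr rfl h1]
    have h2 : e ((n : ℝ) / M) ≠ 1 := by
      intro h3
      obtain ⟨m, hm⟩ := e_eq_one h3
      rw [div_eq_iff hM'] at hm
      have h4 : n = m * M := by exact_mod_cast hm
      rcases eq_or_ne m 0 with rfl | hm0
      · simp at h4; exact h h4
      · have : (M : ℤ) ≤ |n| := by
          rw [h4, abs_mul]
          have : 1 ≤ |m| := Int.one_le_abs hm0
          have h5 : |(M : ℤ)| = M := by simp
          rw [h5]
          nlinarith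
        omega
    have h3 : e ((n : ℝ) / M) ^ M = 1 := by
      rw [← e_nat_mul]
      have : (M : ℝ) * (n / M) = n := by field_simp
      rw [this, e_int]
    have h4 := geom_sum_mul (e ((n : ℝ) / M)) M
    rw [h3, sub_self] at h4
    exact (mul_eq_zero.mp h4).resolve_right (sub_ne_zero.mpr h2)

variable {E : Type*} [NormedAddCommGroup E] [InnerProductSpace ℂ E]

/-- exponential sum along the orbit -/
noncomputable def gs (U : E →ₗᵢ[ℂ] E) (u : E) (N : ℕ) (lam : ℝ) : E :=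
  (N : ℂ)⁻¹ • ∑ h ∈ range N, e (-(lam * h)) • (U^[h]) u

lemma inner_iter (U : E →ₗᵢ[ℂ] E) (u : E) (h d : ℕ) :
    ⟪(U^[h]) u, (U^[h + d]) u⟫_ℂ = ⟪u, (U^[d]) u⟫_ℂ := by
  induction h with
  | zero => simp
  | succ h ih =>
    rw [Nat.succ_add, Function.iterate_succ_apply', Function.iterate_succ_apply',
      U.inner_map_map, ih]

/-- the key finite Fourier computation -/
lemma fourier_coeff (U : E →ₗᵢ[ℂ] E) (u : E) (N M : ℕ) (hN : 1 ≤ N) (d : ℕ) (hd : d + N ≤ M) :
    ∑ j ∈ range M, ((‖gs U u N ((j : ℝ) / M)‖ ^ 2 : ℝ) : ℂ) * e ((j : ℝ) / M * d) =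
      M * ((N - d : ℕ) : ℂ) / N ^ 2 * ⟪u, (U^[d]) u⟫_ℂ := by
  have hM : 1 ≤ M := by omega
  have hN0 : (N : ℂ) ≠ 0 := by
    have : N ≠ 0 := by omega
    exact_mod_cast this
  have h1 : ∀ lam : ℝ, ((‖gs U u N lam‖ ^ 2 : ℝ) : ℂ) = ((N : ℂ) ^ 2)⁻¹ *
      ∑ h ∈ range N, ∑ h' ∈ range N, e (lam * ((h : ℤ) - h' : ℤ)) *
        ⟪(U^[h]) u, (U^[h']) u⟫_ℂ := by
    intro lam
    have h2 : ((‖gs U u N lam‖ ^ 2 : ℝ) : ℂ) = ⟪gs U u N lam, gs U u N lam⟫_ℂ := by
      rw [inner_self_eq_norm_sq_to_K]; push_cast; rfl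
    rw [h2]
    unfold gs
    rw [inner_smul_left, inner_smul_right, sum_inner]
    have h3 : ∀ h ∈ range N, ⟪e (-(lam * h)) • (U^[h]) u,
        ∑ h' ∈ range N, e (-(lam * h')) • (U^[h']) u⟫_ℂ =
        ∑ h' ∈ range N, e (lam * ((h : ℤ) - h' : ℤ)) * ⟪(U^[h]) u, (U^[h']) u⟫_ℂ := by
      intro h _
      rw [inner_sum]
      apply sum_congr rfl
      intro h' _
      rw [inner_smul_left, inner_smul_right, conj_e, ← mul_assoc, ← e_add]
      congr 2
      push_cast
      ring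
    rw [sum_congr rfl h3, ← mul_assoc]
    congr 1
    rw [map_inv₀, Complex.conj_natCast, pow_two, mul_inv]
  have h4 : ∀ j ∈ range M, ((‖gs U u N ((j : ℝ) / M)‖ ^ 2 : ℝ) : ℂ) * e ((j : ℝ) / M * d) =
      ((N : ℂ) ^ 2)⁻¹ * ∑ h ∈ range N, ∑ h' ∈ range N,
        (e ((j : ℝ) / M * (((h : ℤ) - h' + d : ℤ))) * ⟪(U^[h]) u, (U^[h']) u⟫_ℂ) := by
    intro j _
    rw [h1, mul_assoc, sum_mul]
    congr 1
    apply sum_congr rfl
    intro h _
    rw [sum_mul]
    apply sum_congr rfl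
    intro h' _
    rw [mul_right_comm, ← e_add]
    congr 2
    push_cast
    ring
  rw [sum_congr rfl h4, ← mul_sum, sum_comm]
  have h5 : ∀ h ∈ range N, ∑ j ∈ range M, ∑ h' ∈ range N,
        (e ((j : ℝ) / M * (((h : ℤ) - h' + d : ℤ))) * ⟪(U^[h]) u, (U^[h']) u⟫_ℂ) =
      if h + d < N then (M : ℂ) * ⟪u, (U^[d]) u⟫_ℂ else 0 := by
    intro h hh
    rw [mem_range] at hh
    rw [sum_comm]
    have h6 : ∀ h' ∈ range N, ∑ j ∈ range M,
        (e ((j : ℝ) / M * (((h : ℤ) - h' + d : ℤ))) * ⟪(U^[h]) u, (U^[h']) u⟫_ℂ) =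
        if h' = h + d then (M : ℂ) * ⟪u, (U^[d]) u⟫_ℂ else 0 := by
      intro h' hh'
      rw [mem_range] at hh'
      rw [← sum_mul, orth M hM]
      · split_ifs with h7 h8 h8
        · subst h8
          rw [inner_iter]
        · omega
        · omega
        · rw [zero_mul]
      · rw [abs_lt]
        constructor <;> omega
    rw [sum_congr rfl h6]
    split_ifs with h7
    · rw [sum_ite_eq' (range N) (h + d)]
      simp [h7]
    · apply sum_eq_zero
      intro h' hh'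
      rw [mem_range] at hh'
      rw [if_neg (by omega)]
  rw [sum_congr rfl h5, ← sum_filter, sum_const]
  have h8 : #{h ∈ range N | h + d < N} = N - d := by
    have : {h ∈ range N | h + d < N} = range (N - d) := by
      ext x
      simp only [mem_filter, mem_range]
      omega
    rw [this, card_range]
  rw [h8, nsmul_eq_mul]
  field_simp

/-- existence of a good frequency -/
lemma good_freq (U : E →ₗᵢ[ℂ] E) (u : E) (hu : ‖u‖ ≤ 1) (H : ℕ) (hH : 1 ≤ H) (a : ℝ)
    (ha : 0 < a) (h : a * H ≤ ∑ d ∈ range H, ‖⟪u, (U^[d]) u⟫_ℂ‖ ^ 2) :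
    ∃ lam ∈ Set.Icc (0 : ℝ) 1, a / 8 ≤ ‖gs U u (2 * H) lam‖ ^ 2 := by
  set N := 2 * H with hN
  set M := 4 * H with hM
  have hN1 : 1 ≤ N := by omega
  have hM1 : 1 ≤ M := by omega
  have hH0 : (0 : ℝ) < H := by exact_mod_cast hH
  set G : ℕ → ℝ := fun j => ‖gs U u N ((j : ℝ) / M)‖ ^ 2 with hG
  have hG0 : ∀ j, 0 ≤ G j := fun j => by positivity
  set ρ : ℕ → ℂ := fun d => ⟪u, (U^[d]) u⟫_ℂ with hρ
  set b : ℝ := ∑ d ∈ range H, ‖ρ d‖ ^ 2 with hb
  have hb0 : 0 < b := lt_of_lt_of_le (by positivity) h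
  obtain ⟨j0, hj0, hmax⟩ := exists_max_image (range M) G ⟨0, by simp; omega⟩
  rw [mem_range] at hj0
  refine ⟨(j0 : ℝ) / M, ⟨by positivity, ?_⟩, ?_⟩
  · rw [div_le_one (by positivity)]
    exact_mod_cast hj0.le
  change a / 8 ≤ G j0
  -- the mean of `G`
  have hmean : ∑ j ∈ range M, G j ≤ 2 := by
    have h1 := fourier_coeff U u N M hN1 0 (by omega)
    have h2 : ((∑ j ∈ range M, G j : ℝ) : ℂ) = ((M * N / N ^ 2 * ‖u‖ ^ 2 : ℝ) : ℂ) := by
      push_cast
      simp only [Nat.cast_zero, mul_zero, e_zero, mul_one, Nat.sub_zero,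
        Function.iterate_zero, id] at h1
      rw [inner_self_eq_norm_sq_to_K] at h1
      rw [← Complex.coe_algebraMap] at h1
      simpa [hG] using h1
    have h3 : ∑ j ∈ range M, G j = M * N / N ^ 2 * ‖u‖ ^ 2 := by exact_mod_cast h2
    rw [h3]
    have h4 : (M : ℝ) * N / N ^ 2 = 2 := by
      rw [hM, hN]; push_cast; field_simp; ring
    rw [h4]
    have : ‖u‖ ^ 2 ≤ 1 := by
      have := norm_nonneg u
      nlinarith
    linarith
  -- the dual function
  set D : ℕ → ℂ := fun j => ∑ d ∈ range H, conj (ρ d) * e ((j : ℝ) / M * d) with hD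
  have hGD : ∑ j ∈ range M, (G j : ℂ) * D j =
      ((∑ d ∈ range H, (M * ((N - d : ℕ) : ℝ) / N ^ 2) * ‖ρ d‖ ^ 2 : ℝ) : ℂ) := by
    simp only [hD, mul_sum]
    rw [sum_comm]
    push_cast
    apply sum_congr rfl
    intro d hd
    rw [mem_range] at hd
    have h1 := fourier_coeff U u N M hN1 d (by omega)
    have h2 : ∀ j ∈ range M, (G j : ℂ) * (conj (ρ d) * e ((j : ℝ) / M * d)) =
        conj (ρ d) * (((‖gs U u N ((j : ℝ) / M)‖ ^ 2 : ℝ) : ℂ) * e ((j : ℝ) / M * d)) := by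
      intro j _
      simp only [hG]
      ring
    rw [sum_congr rfl h2, ← mul_sum, h1]
    have h3 : conj (ρ d) * ρ d = (‖ρ d‖ : ℂ) ^ 2 := by
      rw [mul_comm, Complex.mul_conj, Complex.normSq_eq_norm_sq]; push_cast; rfl
    change conj (ρ d) * (M * ((N - d : ℕ) : ℂ) / N ^ 2 * ρ d) = _
    rw [← h3]
    ring
  have hlow : b ≤ ∑ d ∈ range H, (M * ((N - d : ℕ) : ℝ) / N ^ 2) * ‖ρ d‖ ^ 2 := by
    rw [hb]
    apply sum_le_sum
    intro d hd
    rw [mem_range] at hd
    have h1 : (1 : ℝ) ≤ M * ((N - d : ℕ) : ℝ) / N ^ 2 := by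
      rw [le_div_iff₀ (by positivity), one_mul, Nat.cast_sub (by omega), hM, hN]
      push_cast
      have : (d : ℝ) ≤ H := by exact_mod_cast hd.le
      nlinarith
    have h2 : 0 ≤ ‖ρ d‖ ^ 2 := by positivity
    nlinarith
  -- mean square of `D`
  have hDD : ∑ j ∈ range M, ‖D j‖ ^ 2 = M * b := by
    have h1 : ((∑ j ∈ range M, ‖D j‖ ^ 2 : ℝ) : ℂ) = ((M * b : ℝ) : ℂ) := by
      push_cast
      have h2 : ∀ j ∈ range M, ((‖D j‖ : ℂ)) ^ 2 = ∑ d ∈ range H, ∑ d' ∈ range H,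
          conj (ρ d) * ρ d' * e ((j : ℝ) / M * (((d : ℤ) - d' : ℤ))) := by
        intro j _
        have h3 : (‖D j‖ : ℂ) ^ 2 = D j * conj (D j) := by
          rw [Complex.mul_conj, Complex.normSq_eq_norm_sq]; push_cast; rfl
        rw [h3]
        simp only [hD, map_sum]
        rw [sum_mul]
        apply sum_congr rfl
        intro d _
        rw [mul_sum]
        apply sum_congr rfl
        intro d' _
        rw [map_mul, conj_e, Complex.conj_conj]
        have : e ((j : ℝ) / M * (((d : ℤ) - d' : ℤ))) =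
            e ((j : ℝ) / M * d) * e (-((j : ℝ) / M * d')) := by
          rw [← e_add]; congr 1; push_cast; ring
        rw [this]
        ring
      rw [sum_congr rfl h2, sum_comm]
      have h3 : ∀ d ∈ range H, ∑ j ∈ range M, ∑ d' ∈ range H,
          conj (ρ d) * ρ d' * e ((j : ℝ) / M * (((d : ℤ) - d' : ℤ))) =
          (M : ℂ) * (‖ρ d‖ : ℂ) ^ 2 := by
        intro d hd
        rw [mem_range] at hd
        rw [sum_comm]
        have h4 : ∀ d' ∈ range H, ∑ j ∈ range M,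
            conj (ρ d) * ρ d' * e ((j : ℝ) / M * (((d : ℤ) - d' : ℤ))) =
            if d' = d then (M : ℂ) * (‖ρ d‖ : ℂ) ^ 2 else 0 := by
          intro d' hd'
          rw [mem_range] at hd'
          rw [← mul_sum, orth M hM1]
          · split_ifs with h5 h6 h6
            · subst h6
              have h3 : conj (ρ d') * ρ d' = (‖ρ d'‖ : ℂ) ^ 2 := by
                rw [mul_comm, Complex.mul_conj, Complex.normSq_eq_norm_sq]; push_cast; rfl
              rw [h3, mul_comm]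
            · omega
            · omega
            · rw [mul_zero]
          · rw [abs_lt]
            constructor <;> omega
        rw [sum_congr rfl h4, sum_ite_eq' (range H) d]
        simp [hd]
      rw [sum_congr rfl h3, ← mul_sum, hb]
      push_cast
      rfl
    exact_mod_cast h1
  -- Cauchy-Schwarz
  have hCS : b ≤ ∑ j ∈ range M, G j * ‖D j‖ := by
    calc b ≤ ∑ d ∈ range H, (M * ((N - d : ℕ) : ℝ) / N ^ 2) * ‖ρ d‖ ^ 2 := hlow
      _ ≤ ‖((∑ d ∈ range H, (M * ((N - d : ℕ) : ℝ) / N ^ 2) * ‖ρ d‖ ^ 2 : ℝ) : ℂ)‖ := by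
          rw [Complex.norm_real]; exact le_abs_self _
      _ = ‖∑ j ∈ range M, (G j : ℂ) * D j‖ := by rw [hGD]
      _ ≤ ∑ j ∈ range M, ‖(G j : ℂ) * D j‖ := norm_sum_le _ _
      _ = ∑ j ∈ range M, G j * ‖D j‖ := by
          apply sum_congr rfl
          intro j _
          rw [norm_mul, Complex.norm_real, Real.norm_of_nonneg (hG0 j)]
  have hCS2 : b ^ 2 ≤ (∑ j ∈ range M, G j ^ 2) * (M * b) := by
    rw [← hDD]
    calc b ^ 2 ≤ (∑ j ∈ range M, G j * ‖D j‖) ^ 2 := by gcongr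
      _ ≤ _ := sum_mul_sq_le_sq_mul_sq _ _ _
  have hGG : ∑ j ∈ range M, G j ^ 2 ≤ G j0 * 2 := by
    calc ∑ j ∈ range M, G j ^ 2 ≤ ∑ j ∈ range M, G j0 * G j := by
          apply sum_le_sum
          intro j hj
          have h1 := hmax j hj
          have h2 := hG0 j
          nlinarith
      _ = G j0 * ∑ j ∈ range M, G j := by rw [mul_sum]
      _ ≤ _ := by gcongr
  have h9 : b ^ 2 ≤ G j0 * 2 * (M * b) := by
    refine hCS2.trans ?_
    gcongr
  have h10 : b ≤ G j0 * 2 * M := by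
    have : b * b ≤ (G j0 * 2 * M) * b := by nlinarith
    exact le_of_mul_le_mul_right this hb0
  have h11 : a * H ≤ G j0 * 2 * M := h.trans h10
  rw [hM] at h11
  push_cast at h11
  have h12 : a * H ≤ (8 * G j0) * H := by linarith
  have := le_of_mul_le_mul_right h12 hH0
  linarith

lemma continuous_gs (U : E →ₗᵢ[ℂ] E) (u : E) (K : ℕ) : Continuous (gs U u K) := by
  unfold gs
  apply Continuous.const_smul
  apply continuous_finsetSum
  intro h _
  apply Continuous.smul _ continuous_const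
  exact continuous_e.comp (by fun_prop)

lemma norm_iter (U : E →ₗᵢ[ℂ] E) (u : E) (h : ℕ) : ‖(U^[h]) u‖ = ‖u‖ := by
  induction h with
  | zero => simp
  | succ h ih => rw [Function.iterate_succ_apply', U.norm_map, ih]

lemma iter_smul_sum (U : E →ₗᵢ[ℂ] E) (h : ℕ) (c : ℂ) (s : Finset ℕ) (f : ℕ → E) :
    (U^[h]) (c • ∑ k ∈ s, f k) = c • ∑ k ∈ s, (U^[h]) (f k) := by
  induction h with
  | zero => simp
  | succ h ih =>
    rw [Function.iterate_succ_apply', ih, map_smul, map_sum]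
    simp [Function.iterate_succ_apply']

lemma iter_smul (U : E →ₗᵢ[ℂ] E) (h : ℕ) (c : ℂ) (x : E) :
    (U^[h]) (c • x) = c • (U^[h]) x := by
  induction h with
  | zero => simp
  | succ h ih =>
    rw [Function.iterate_succ_apply', ih, map_smul, Function.iterate_succ_apply']

/-- comparison of different lengths -/
lemma gs_compare (U : E →ₗᵢ[ℂ] E) (u : E) (hu : ‖u‖ ≤ 1) (K N : ℕ) (hK : 1 ≤ K) (hN : 1 ≤ N)
    (lam : ℝ) : ‖gs U u N lam‖ ≤ ‖gs U u K lam‖ + 2 * K / N := by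
  set w : ℕ → E := fun h => e (-(lam * h)) • (U^[h]) u with hw
  have hw1 : ∀ h, ‖w h‖ ≤ 1 := by
    intro h
    rw [hw]
    simp only
    rw [norm_smul, norm_e, one_mul, norm_iter]
    exact hu
  have hK0 : (K : ℂ) ≠ 0 := by
    have : K ≠ 0 := by omega
    exact_mod_cast this
  have hN0 : (N : ℂ) ≠ 0 := by
    have : N ≠ 0 := by omega
    exact_mod_cast this
  have hK1 : (0 : ℝ) < K := by exact_mod_cast hK
  have hN1 : (0 : ℝ) < N := by exact_mod_cast hN
  -- translation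
  have h1 : ∀ h : ℕ, e (-(lam * h)) • (U^[h]) (gs U u K lam) =
      (K : ℂ)⁻¹ • ∑ k ∈ range K, w (k + h) := by
    intro h
    unfold gs
    rw [iter_smul_sum, smul_comm]
    congr 1
    rw [smul_sum]
    apply sum_congr rfl
    intro k _
    rw [iter_smul, smul_smul, ← e_add, ← Function.iterate_add_apply]
    simp only [hw]
    congr 2
    · push_cast; ring
    · rw [add_comm]
  have h2 : ‖(N : ℂ)⁻¹ • ∑ h ∈ range N, (K : ℂ)⁻¹ • ∑ k ∈ range K, w (k + h)‖ ≤
      ‖gs U u K lam‖ := by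
    rw [norm_smul, norm_inv, Complex.norm_natCast]
    have : ‖∑ h ∈ range N, (K : ℂ)⁻¹ • ∑ k ∈ range K, w (k + h)‖ ≤ N * ‖gs U u K lam‖ := by
      refine (norm_sum_le _ _).trans ?_
      have h3 : ∀ h ∈ range N, ‖(K : ℂ)⁻¹ • ∑ k ∈ range K, w (k + h)‖ ≤ ‖gs U u K lam‖ := by
        intro h _
        rw [← h1, norm_smul, norm_e, one_mul, norm_iter]
      refine (sum_le_sum h3).trans ?_
      rw [sum_const, card_range, nsmul_eq_mul]
    rw [inv_mul_le_iff₀ hN1]
    exact this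
  have h3 : ∀ k, ‖∑ h ∈ range N, w h - ∑ h ∈ range N, w (k + h)‖ ≤ 2 * k := by
    intro k
    have e1 : ∑ h ∈ range N, w (k + h) = ∑ h ∈ range (k + N), w h - ∑ h ∈ range k, w h := by
      rw [sum_range_add]; abel
    have e2 : ∑ h ∈ range (k + N), w h = ∑ h ∈ range N, w h + ∑ h ∈ range k, w (N + h) := by
      rw [add_comm k N, sum_range_add]
    rw [e1, e2]
    have e3 : ∑ h ∈ range N, w h - (∑ h ∈ range N, w h + ∑ h ∈ range k, w (N + h) -
        ∑ h ∈ range k, w h) = ∑ h ∈ range k, w h - ∑ h ∈ range k, w (N + h) := by abel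
    rw [e3]
    have e4 : ‖∑ h ∈ range k, w h‖ ≤ k := by
      refine (norm_sum_le _ _).trans ((sum_le_sum (fun i _ => hw1 i)).trans ?_)
      simp
    have e5 : ‖∑ h ∈ range k, w (N + h)‖ ≤ k := by
      refine (norm_sum_le _ _).trans ((sum_le_sum (fun i _ => hw1 _)).trans ?_)
      simp
    calc _ ≤ ‖∑ h ∈ range k, w h‖ + ‖∑ h ∈ range k, w (N + h)‖ := norm_sub_le _ _
      _ ≤ _ := by linarith
  have h4 : gs U u N lam = (N : ℂ)⁻¹ • ∑ h ∈ range N, (K : ℂ)⁻¹ • ∑ k ∈ range K, w (k + h) +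
      (N : ℂ)⁻¹ • (K : ℂ)⁻¹ • ∑ k ∈ range K, (∑ h ∈ range N, w h - ∑ h ∈ range N, w (k + h)) := by
    rw [← smul_add]
    unfold gs
    congr 1
    rw [← smul_sum, ← smul_add, sum_comm, ← sum_add_distrib]
    simp only [add_sub_cancel]
    rw [sum_const, card_range, ← Nat.cast_smul_eq_nsmul ℂ, smul_smul, inv_mul_cancel₀ hK0, one_smul]
  rw [h4]
  refine (norm_add_le _ _).trans (add_le_add h2 ?_)
  rw [norm_smul, norm_smul, norm_inv, norm_inv, Complex.norm_natCast, Complex.norm_natCast]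
  have h5 : ‖∑ k ∈ range K, (∑ h ∈ range N, w h - ∑ h ∈ range N, w (k + h))‖ ≤ K * (2 * K) := by
    refine (norm_sum_le _ _).trans ?_
    have h6 : ∀ k ∈ range K, ‖∑ h ∈ range N, w h - ∑ h ∈ range N, w (k + h)‖ ≤ 2 * K := by
      intro k hk
      rw [mem_range] at hk
      refine (h3 k).trans ?_
      have : (k : ℝ) ≤ K := by exact_mod_cast hk.le
      linarith
    refine (sum_le_sum h6).trans ?_
    rw [sum_const, card_range, nsmul_eq_mul]
  calc (N : ℝ)⁻¹ * ((K : ℝ)⁻¹ * ‖∑ k ∈ range K, (∑ h ∈ range N, w h - ∑ h ∈ range N, w (k + h))‖)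
      ≤ (N : ℝ)⁻¹ * ((K : ℝ)⁻¹ * (K * (2 * K))) := by gcongr
    _ = 2 * K / N := by field_simp

/-- a frequency which is good for all lengths -/
lemma limit_freq (U : E →ₗᵢ[ℂ] E) (u : E) (hu : ‖u‖ ≤ 1) (a : ℝ) (ha : 0 < a)
    (h : ∃ᶠ H : ℕ in atTop, a * H ≤ ∑ d ∈ range H, ‖⟪u, (U^[d]) u⟫_ℂ‖ ^ 2) :
    ∃ lam : ℝ, ∀ K : ℕ, 1 ≤ K → Real.sqrt (a / 8) ≤ ‖gs U u K lam‖ := by
  have h1 := h.and_eventually (eventually_ge_atTop 1)
  obtain ⟨φ, hφ, hφ2⟩ := extraction_of_frequently_atTop h1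
  choose lam hlam hlam2 using fun n => good_freq U u hu (φ n) (hφ2 n).2 a ha (hφ2 n).1
  obtain ⟨l, _, ψ, hψ, hl⟩ := isCompact_Icc.tendsto_subseq hlam
  refine ⟨l, fun K hK => ?_⟩
  have h2 : Tendsto (fun n => ‖gs U u K (lam (ψ n))‖ + 2 * K / ((2 * φ (ψ n) : ℕ) : ℝ)) atTop
      (𝓝 (‖gs U u K l‖ + 0)) := by
    apply Tendsto.add
    · exact ((continuous_gs U u K).norm.tendsto l).comp hl
    · apply Tendsto.const_div_atTop
      apply tendsto_natCast_atTop_atTop.comp
      have h3 : Tendsto (fun n => φ (ψ n)) atTop atTop :=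
        hφ.tendsto_atTop.comp hψ.tendsto_atTop
      exact h3.const_mul_atTop' (by norm_num)
  rw [add_zero] at h2
  refine ge_of_tendsto' h2 (fun n => ?_)
  have h4 := gs_compare U u hu K (2 * φ (ψ n)) hK (by have := (hφ2 (ψ n)).2; omega) (lam (ψ n))
  refine le_trans ?_ h4
  rw [← Real.sqrt_sq (norm_nonneg (gs U u (2 * φ (ψ n)) (lam (ψ n))))]
  exact Real.sqrt_le_sqrt (hlam2 (ψ n))

/-- existence of an eigenvector -/
lemma exists_eigvec [CompleteSpace E] (U : E →ₗᵢ[ℂ] E) (u : E) (hu : ‖u‖ ≤ 1) (a : ℝ)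
    (ha : 0 < a) (h : ∃ᶠ H : ℕ in atTop, a * H ≤ ∑ d ∈ range H, ‖⟪u, (U^[d]) u⟫_ℂ‖ ^ 2) :
    ∃ (lam : ℝ) (g : E), U g = e lam • g ∧ ⟪g, u⟫_ℂ = (‖g‖ : ℂ) ^ 2 ∧ a / 8 ≤ ‖g‖ ^ 2 := by
  obtain ⟨lam, hlam⟩ := limit_freq U u hu a ha h
  set V : E →L[ℂ] E := e (-lam) • U.toContinuousLinearMap with hV
  have hV1 : ‖V‖ ≤ 1 := by
    refine ContinuousLinearMap.opNorm_le_bound _ zero_le_one (fun x => ?_)
    rw [hV]
    simp [norm_smul, norm_e]
  have hVi : ∀ k x, (V^[k]) x = e (-(lam * k)) • (U^[k]) x := by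
    intro k x
    induction k with
    | zero => simp [e_zero]
    | succ k ih =>
      rw [Function.iterate_succ_apply', ih, map_smul, Function.iterate_succ_apply', hV]
      simp only [smul_apply, LinearIsometry.coe_toContinuousLinearMap]
      rw [smul_smul, ← e_add]
      congr 2
      push_cast
      ring
  have ht := ContinuousLinearMap.tendsto_birkhoffAverage_orthogonalProjection V hV1 u
  set W := V.eqLocus (1 : E →L[ℂ] E) with hW
  set g : W := W.orthogonalProjectionOnto u with hg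
  have hgV : V (g : E) = g := by
    have h0 : (g : E) ∈ V.eqLocus (1 : E →L[ℂ] E) := g.2
    rw [LinearMap.mem_eqLocus] at h0
    simpa using h0
  refine ⟨lam, g, ?_, ?_, ?_⟩
  · have h1 : e (-lam) • U (g : E) = g := by
      rw [hV] at hgV
      simpa using hgV
    calc U (g : E) = (e lam * e (-lam)) • U (g : E) := by
          rw [mul_comm, e_neg_mul, one_smul]
      _ = e lam • (e (-lam) • U (g : E)) := by rw [smul_smul]
      _ = _ := by rw [h1]
  · have h1 := Submodule.inner_orthogonalProjectionOnto_eq_of_mem_left (K := W) g u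
    rw [← h1, ← hg, inner_self_eq_norm_sq_to_K]
    simp
  · have h2 : Tendsto (fun K => ‖birkhoffAverage ℂ V _root_.id K u‖) atTop (𝓝 ‖(g : E)‖) :=
      ht.norm
    have h3 : Real.sqrt (a / 8) ≤ ‖(g : E)‖ := by
      refine ge_of_tendsto h2 ?_
      filter_upwards [eventually_ge_atTop 1] with K hK
      have h4 : birkhoffAverage ℂ V _root_.id K u = gs U u K lam := by
        unfold birkhoffAverage birkhoffSum gs
        congr 1
        apply sum_congr rfl
        intro k _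
        simp only [id]
        exact hVi k u
      rw [h4]
      exact hlam K hK
    calc a / 8 = Real.sqrt (a / 8) ^ 2 := (Real.sq_sqrt (by positivity)).symm
      _ ≤ _ := by gcongr

end Pool.Agent.JE.T9
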